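import Mathlib

set_option autoImplicit false

open Set Filter Topology TopologicalSpace

namespace Pool.Agent.Results.MP_a16b96_lc.NotEqual

universe u v

/-- `A` is countably perfectly meager in `X`: for each sequence of perfect (nonempty, closed,
without isolated points) subsets `P n` of `X` there is an `Fσ` set `⋃ k, F k` containing `A` whose
trace on each `P n` is meager in the relative topology of `P n`. -/
def CountablyPerfectlyMeager {X : Type u} [TopologicalSpace X] (A : Set X) : Prop :=
  ∀ P : ℕ → Set X, (∀ n, (P n).Nonempty ∧ Perfect (P n)) →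
    ∃ F : ℕ → Set X, (∀ k, IsClosed (F k)) ∧ A ⊆ ⋃ k, F k ∧
      ∀ n, IsMeagre ((↑) ⁻¹' (⋃ k, F k) : Set (P n))

/-- `A` is universally meager: the image of `A` under each Borel isomorphism onto a perfect Polish
space is meager. -/
def UniversallyMeager {X : Type u} [TopologicalSpace X] (A : Set X) : Prop :=
  ∀ (Y : Type v) [TopologicalSpace Y] [PolishSpace Y] [PerfectSpace Y] (f : X ≃ Y),
    @Measurable X Y (borel X) (borel Y) f → @Measurable Y X (borel Y) (borel X) f.symm →
      IsMeagre (f '' A)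


/-- A sequence of nonempty open sets enumerating a base. -/
lemma exists_base_seq (Y : Type v) [TopologicalSpace Y] [SecondCountableTopology Y] [Nonempty Y] :
    ∃ U : ℕ → Set Y, (∀ n, IsOpen (U n) ∧ (U n).Nonempty) ∧
      ∀ (y : Y) (V : Set Y), IsOpen V → y ∈ V → ∃ n, y ∈ U n ∧ U n ⊆ V := by
  obtain ⟨b, hbc, hbe, hb⟩ := exists_countable_basis Y
  have hbne : b.Nonempty := by
    obtain ⟨y⟩ := (inferInstance : Nonempty Y)
    obtain ⟨V, hV, -, -⟩ := hb.exists_subset_of_mem_open (mem_univ y) isOpen_univ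
    exact ⟨V, hV⟩
  obtain ⟨U, hU⟩ := hbc.exists_eq_range hbne
  refine ⟨U, fun n => ⟨hb.isOpen (hU ▸ mem_range_self n), ?_⟩, ?_⟩
  · rw [nonempty_iff_ne_empty]
    intro h
    exact hbe (h ▸ hU ▸ mem_range_self n)
  · intro y V hV hy
    obtain ⟨W, hW, hyW, hWV⟩ := hb.exists_subset_of_mem_open hy hV
    rw [hU] at hW
    obtain ⟨n, rfl⟩ := hW
    exact ⟨n, hyW, hWV⟩

/-- Every nonempty perfect Polish space admits a category preserving map onto a dense part of a
perfect compact subset of the Cantor space. -/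
lemma exists_psi (Y : Type v) [TopologicalSpace Y] [SecondCountableTopology Y] [T1Space Y]
    [BaireSpace Y] [PerfectSpace Y] [Nonempty Y] :
    ∃ (K : Set (ℕ → Bool)) (ψ : Y → K), K.Nonempty ∧ Perfect K ∧
      Tendsto ψ (residual Y) (residual K) := by
  classical
  obtain ⟨U, hUo, hUb⟩ := exists_base_seq Y
  let ψ : Y → (ℕ → Bool) := fun y n => decide (y ∈ U n)
  have hψ : ∀ y n, ψ y n = true ↔ y ∈ U n := fun y n => by simp [ψ]
  let Y1 : Set Y := {y | ∀ n, y ∉ frontier (U n)}
  have hY1 : Y1 ∈ residual Y := by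
    refine (eventually_countable_forall).2 (fun n => ?_)
    have h1 : IsOpen (frontier (U n))ᶜ := isClosed_frontier.isOpen_compl
    have h2 : Dense (frontier (U n))ᶜ := by
      rw [← interior_eq_empty_iff_dense_compl, ← frontier_compl]
      exact interior_frontier (hUo n).1.isClosed_compl
    exact residual_of_dense_open h1 h2
  have hY1d : Dense Y1 := dense_of_mem_residual hY1
  have hcont : ∀ y ∈ Y1, ContinuousAt ψ y := by
    intro y hy
    rw [continuousAt_pi]
    intro n
    have hev : ∀ᶠ z in 𝓝 y, ψ z n = ψ y n := by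
      by_cases hyn : y ∈ U n
      · filter_upwards [(hUo n).1.mem_nhds hyn] with z hz
        simp [ψ, hz, hyn]
      · have hcl : y ∉ closure (U n) := by
          intro hc
          apply hy n
          rw [frontier, (hUo n).1.interior_eq]
          exact ⟨hc, hyn⟩
        filter_upwards [isClosed_closure.isOpen_compl.mem_nhds hcl] with z hz
        have hz' : z ∉ U n := fun h => hz (subset_closure h)
        simp [ψ, hz', hyn]
    exact (continuousAt_const (y := ψ y n)).congr (hev.mono fun z hz => hz.symm)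
  have hsep : ∀ y z : Y, y ≠ z → ψ y ≠ ψ z := by
    intro y z hyz h
    obtain ⟨n, hyn, hn⟩ := hUb y {z}ᶜ isOpen_compl_singleton hyz
    have h1 : ψ z n = true := by
      rw [← h]
      exact (hψ y n).2 hyn
    exact hn ((hψ z n).1 h1) rfl
  have hpre : Preperfect (ψ '' Y1) := by
    rw [preperfect_iff_nhds]
    rintro _ ⟨y, hy, rfl⟩ W hW
    have h1 : ψ ⁻¹' W ∈ 𝓝 y := hcont y hy hW
    obtain ⟨V, hVW, hVo, hyV⟩ := mem_nhds_iff.1 h1
    have h2 : (V \ {y}).Nonempty := by
      have := (PerfectSpace.univ_preperfect (α := Y))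
      rw [preperfect_iff_nhds] at this
      obtain ⟨z, hz, hzy⟩ := this y (mem_univ y) V (hVo.mem_nhds hyV)
      exact ⟨z, hz.1, hzy⟩
    have h3 : IsOpen (V \ {y}) := hVo.sdiff isClosed_singleton
    obtain ⟨z, hz, hz1⟩ := hY1d.inter_open_nonempty _ h3 h2
    exact ⟨ψ z, ⟨hVW hz.1, mem_image_of_mem ψ hz1⟩, hsep z y hz.2⟩
  let K : Set (ℕ → Bool) := closure (ψ '' Y1)
  have hKp : Perfect K := hpre.perfect_closure
  have hKne : K.Nonempty := (hY1d.nonempty.image ψ).closure
  have hmem : ∀ y ∈ Y1, ψ y ∈ K := fun y hy => subset_closure (mem_image_of_mem ψ hy)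
  obtain ⟨k0, hk0⟩ := hKne
  let ψ' : Y → K := fun y => if h : ψ y ∈ K then ⟨ψ y, h⟩ else ⟨k0, hk0⟩
  have hψ' : ∀ y ∈ Y1, (ψ' y : ℕ → Bool) = ψ y := by
    intro y hy
    simp only [ψ']
    rw [dif_pos (hmem y hy)]
  refine ⟨K, ψ', ⟨k0, hk0⟩, hKp, ?_⟩
  apply le_countableGenerate_iff_of_countableInterFilter.mpr
  rintro t ⟨hto, htd⟩
  obtain ⟨T, hT, rfl⟩ := isOpen_induced_iff.1 hto
  change ψ' ⁻¹' ((↑) ⁻¹' T) ∈ residual Y
  have hWd : Dense (interior (ψ ⁻¹' T)) := by
    rw [dense_iff_inter_open]
    intro V hV hVne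
    obtain ⟨v, hv⟩ := hVne
    obtain ⟨n, hvn, hnV⟩ := hUb v V hV hv
    obtain ⟨y0, hy0n, hy0⟩ := hY1d.inter_open_nonempty _ (hUo n).1 ⟨v, hvn⟩
    -- the set of points of K with n-th coordinate true
    have hE : IsOpen {a : ℕ → Bool | a n = true} :=
      isOpen_discrete (({true} : Set Bool)) |>.preimage (continuous_apply (A := fun _ : ℕ => Bool) n)
    have hE' : IsOpen ((↑) ⁻¹' {a : ℕ → Bool | a n = true} : Set K) :=
      continuous_subtype_val.isOpen_preimage _ hE
    have hEne : ((↑) ⁻¹' {a : ℕ → Bool | a n = true} : Set K).Nonempty :=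
      ⟨⟨ψ y0, hmem y0 hy0⟩, (hψ y0 n).2 hy0n⟩
    obtain ⟨⟨k, hk⟩, hkE, hkT⟩ := htd.inter_open_nonempty _ hE' hEne
    have hopen : IsOpen ({a : ℕ → Bool | a n = true} ∩ T) := hE.inter hT
    obtain ⟨_, ⟨hzE, hzT⟩, ⟨z, hz1, rfl⟩⟩ := mem_closure_iff.1 hk _ hopen ⟨hkE, hkT⟩
    refine ⟨z, hnV ((hψ z n).1 hzE), ?_⟩
    rw [mem_interior_iff_mem_nhds]
    exact hcont z hz1 (hT.mem_nhds hzT)
  filter_upwards [residual_of_dense_open isOpen_interior hWd, hY1] with y hy hy1
  change (ψ' y : ℕ → Bool) ∈ T
  rw [hψ' y hy1]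
  exact interior_subset (s := ψ ⁻¹' T) hy

/-- `pick O i j` is the `j`-th basic set if it is contained in the `i`-th one, and the `i`-th basic
set otherwise. -/
def pick {K : Type u} (O : ℕ → Set K) (i j : ℕ) : Set K :=
  {x | (O j ⊆ O i ∧ x ∈ O j) ∨ (¬ O j ⊆ O i ∧ x ∈ O i)}

/-- The dense `Gδ` set coded by `c`. -/
def GG {K : Type u} (O : ℕ → Set K) (c : ℕ → ℕ) : Set K :=
  {x | ∀ n, ∃ i, x ∈ pick O i (c (Nat.pair n i))}

lemma pick_subset {K : Type u} (O : ℕ → Set K) (i j : ℕ) : pick O i j ⊆ O i := by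
  rintro x (⟨h, hx⟩ | ⟨-, hx⟩)
  · exact h hx
  · exact hx

lemma pick_eq_or {K : Type u} (O : ℕ → Set K) (i j : ℕ) : ∃ l, pick O i j = O l := by
  by_cases h : O j ⊆ O i
  · exact ⟨j, by ext x; simp [pick, h]⟩
  · exact ⟨i, by ext x; simp [pick, h]⟩

/-- Every meagre set is disjoint from some coded dense `Gδ` set. -/
lemma exists_code {K : Type u} [TopologicalSpace K] (O : ℕ → Set K)
    (hO : ∀ n, IsOpen (O n) ∧ (O n).Nonempty)
    (hb : ∀ (y : K) (V : Set K), IsOpen V → y ∈ V → ∃ n, y ∈ O n ∧ O n ⊆ V)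
    (M : Set K) (hM : IsMeagre M) : ∃ c : ℕ → ℕ, ∀ x ∈ M, x ∉ GG O c := by
  obtain ⟨S, hSo, hSd, hSc, hS⟩ := mem_residual_iff.1 hM
  obtain ⟨D, hD⟩ := (hSc.insert univ).exists_eq_range (insert_nonempty _ _)
  have hDo : ∀ n, IsOpen (D n) := by
    intro n
    have : D n ∈ insert univ S := hD ▸ mem_range_self n
    rcases this with h | h
    · rw [h]; exact isOpen_univ
    · exact hSo _ h
  have hDd : ∀ n, Dense (D n) := by
    intro n
    have : D n ∈ insert univ S := hD ▸ mem_range_self n
    rcases this with h | h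
    · rw [h]; exact dense_univ
    · exact hSd _ h
  have hex : ∀ n i, ∃ j, O j ⊆ D n ∩ O i := by
    intro n i
    obtain ⟨y, hy1, hy2⟩ := (hDd n).inter_open_nonempty _ (hO i).1 (hO i).2
    obtain ⟨j, -, hj⟩ := hb y (D n ∩ O i) ((hDo n).inter (hO i).1) ⟨hy2, hy1⟩
    exact ⟨j, hj⟩
  choose j hj using hex
  refine ⟨fun m => j (Nat.unpair m).1 (Nat.unpair m).2, ?_⟩
  intro x hxM hx
  have hxS : x ∈ ⋂₀ S := by
    intro t ht
    have : t ∈ range D := hD ▸ mem_insert_of_mem _ ht
    obtain ⟨n, rfl⟩ := this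
    obtain ⟨i, hi⟩ := hx n
    simp only [Nat.unpair_pair] at hi
    have hsub : O (j n i) ⊆ O i := (hj n i).trans inter_subset_right
    rcases hi with ⟨-, hi⟩ | ⟨h, -⟩
    · exact (hj n i hi).1
    · exact absurd hsub h
  exact hS hxS hxM

/-- Kuratowski-Ulam for coded dense `Gδ` sets. -/
lemma kuratowskiUlam {K : Type u} [TopologicalSpace K] (O : ℕ → Set K)
    (hO : ∀ n, IsOpen (O n) ∧ (O n).Nonempty)
    (hb : ∀ (y : K) (V : Set K), IsOpen V → y ∈ V → ∃ n, y ∈ O n ∧ O n ⊆ V)
    {Y : Type v} [TopologicalSpace Y] [SecondCountableTopology Y] [BaireSpace Y] [Nonempty Y]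
    [MeasurableSpace Y] [BorelSpace Y]
    (C : Y → (ℕ → ℕ)) (hC : ∀ m, Measurable (fun y => C y m)) :
    ∀ᶠ x in residual K, ∀ᶠ y in residual Y, x ∈ GG O (C y) := by
  obtain ⟨U, hUo, hUb⟩ := exists_base_seq Y
  -- open sets approximating the level sets
  have hV : ∀ m j, ∃ V : Set Y, IsOpen V ∧ {y | C y m = j} =ᶠ[residual Y] V := by
    intro m j
    have : MeasurableSet {y | C y m = j} := hC m (measurableSet_singleton j)
    exact this.residualEq_isOpen
  choose V hVo hVeq using hV
  -- good set
  let N : Set Y := {y | ∀ m j, (C y m = j ↔ y ∈ V m j)}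
  have hN : N ∈ residual Y := by
    refine (eventually_countable_forall).2 (fun m => (eventually_countable_forall).2 (fun j => ?_))
    exact (eventuallyEq_set.1 (hVeq m j))
  have hNd : Dense N := dense_of_mem_residual hN
  -- the sets T n W
  have hT : ∀ n k, {x : K | ∃ i j, x ∈ pick O i j ∧ (V (Nat.pair n i) j ∩ U k).Nonempty} ∈
      residual K := by
    intro n k
    apply residual_of_dense_open
    · have : {x : K | ∃ i j, x ∈ pick O i j ∧ (V (Nat.pair n i) j ∩ U k).Nonempty} =
          ⋃ (i : ℕ) (j : ℕ) (_ : (V (Nat.pair n i) j ∩ U k).Nonempty), pick O i j := by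
        ext x
        simp only [mem_ofPred_eq, mem_iUnion, exists_prop]
        constructor
        · rintro ⟨i, j, h1, h2⟩
          exact ⟨i, j, h2, h1⟩
        · rintro ⟨i, j, h1, h2⟩
          exact ⟨i, j, h2, h1⟩
      rw [this]
      refine isOpen_iUnion fun i => isOpen_iUnion fun j => isOpen_iUnion fun _ => ?_
      obtain ⟨l, hl⟩ := pick_eq_or O i j
      rw [hl]
      exact (hO l).1
    · rw [dense_iff_inter_open]
      rintro W hW ⟨w, hw⟩
      obtain ⟨i, hwi, hi⟩ := hb w W hW hw
      obtain ⟨y, hyU, hyN⟩ := hNd.inter_open_nonempty _ (hUo k).1 (hUo k).2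
      obtain ⟨l, hl⟩ := pick_eq_or O i (C y (Nat.pair n i))
      obtain ⟨x, hx⟩ := (hO l).2
      rw [← hl] at hx
      refine ⟨x, hi (pick_subset O i _ hx), i, C y (Nat.pair n i), hx, y, ?_, hyU⟩
      exact (hyN _ _).1 rfl
  have hT' : ∀ᶠ x in residual K, ∀ n k, ∃ i j, x ∈ pick O i j ∧
      (V (Nat.pair n i) j ∩ U k).Nonempty :=
    (eventually_countable_forall).2 (fun n => (eventually_countable_forall).2 (fun k => hT n k))
  filter_upwards [hT'] with x hx
  have hR : ∀ n, {y : Y | ∃ i j, x ∈ pick O i j ∧ y ∈ V (Nat.pair n i) j} ∈ residual Y := by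
    intro n
    apply residual_of_dense_open
    · have : {y : Y | ∃ i j, x ∈ pick O i j ∧ y ∈ V (Nat.pair n i) j} =
          ⋃ (i : ℕ) (j : ℕ) (_ : x ∈ pick O i j), V (Nat.pair n i) j := by
        ext y
        simp only [mem_ofPred_eq, mem_iUnion, exists_prop]
      rw [this]
      exact isOpen_iUnion fun i => isOpen_iUnion fun j => isOpen_iUnion fun _ => hVo _ _
    · rw [dense_iff_inter_open]
      rintro W hW ⟨w, hw⟩
      obtain ⟨k, -, hk⟩ := hUb w W hW hw
      obtain ⟨i, j, hxp, y, hyV, hyU⟩ := hx n k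
      exact ⟨y, hk hyU, i, j, hxp, hyV⟩
  have hR' : ∀ᶠ y in residual Y, ∀ n, ∃ i j, x ∈ pick O i j ∧ y ∈ V (Nat.pair n i) j :=
    (eventually_countable_forall).2 hR
  filter_upwards [hR', hN] with y hy hyN n
  obtain ⟨i, j, hxp, hyV⟩ := hy n
  refine ⟨i, ?_⟩
  rw [(hyN _ _).2 hyV]
  exact hxp



/-- Position of the `n`-th one. -/
def pos (u : ℕ → ℕ) (n : ℕ) : ℕ := n + ∑ i ∈ Finset.range (n + 1), u i

lemma pos_strictMono (u : ℕ → ℕ) : StrictMono (pos u) := by
  apply strictMono_nat_of_lt_succ
  intro n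
  unfold pos
  rw [Finset.sum_range_succ _ (n + 1)]
  omega

lemma le_pos (u : ℕ → ℕ) (n : ℕ) : u n ≤ pos u n := by
  unfold pos
  rw [Finset.sum_range_succ]
  omega

lemma pos_injective : Function.Injective pos := by
  intro u u' h
  have h0 : ∀ n, ∑ i ∈ Finset.range (n + 1), u i = ∑ i ∈ Finset.range (n + 1), u' i := by
    intro n
    have := congrFun h n
    unfold pos at this
    omega
  funext n
  rcases n with _ | n
  · have := h0 0
    simpa using this
  · have h1 := h0 (n + 1)
    have h2 := h0 n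
    rw [Finset.sum_range_succ, Finset.sum_range_succ _ (n + 1), h2] at h1
    omega

open Classical in
/-- The homeomorphic embedding of the Baire space into the Cantor space. -/
noncomputable def jmap (u : ℕ → ℕ) : ℕ → Bool := fun m => decide (∃ n ≤ m, pos u n = m)

lemma jmap_eq_true_iff (u : ℕ → ℕ) (m : ℕ) : jmap u m = true ↔ m ∈ range (pos u) := by
  unfold jmap
  rw [decide_eq_true_iff]
  constructor
  · rintro ⟨n, -, h⟩
    exact ⟨n, h⟩
  · rintro ⟨n, h⟩
    exact ⟨n, h ▸ (pos_strictMono u).le_apply, h⟩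

lemma jmap_injective : Function.Injective jmap := by
  intro u u' h
  apply pos_injective
  apply (StrictMono.range_inj (pos_strictMono u) (pos_strictMono u')).1
  ext m
  rw [← jmap_eq_true_iff, ← jmap_eq_true_iff, h]

lemma continuous_pos (n : ℕ) : Continuous (fun u : ℕ → ℕ => pos u n) := by
  unfold pos
  fun_prop

lemma continuous_jmap : Continuous jmap := by
  classical
  rw [continuous_pi_iff]
  intro m
  have h1 : Continuous (fun u : ℕ → ℕ => (fun n : Fin (m + 1) => pos u n)) :=
    continuous_pi fun n => continuous_pos n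
  have h2 : (fun u : ℕ → ℕ => jmap u m) =
      (fun g : Fin (m + 1) → ℕ => decide (∃ n, g n = m)) ∘
        (fun u : ℕ → ℕ => (fun n : Fin (m + 1) => pos u n)) := by
    funext u
    simp only [jmap, Function.comp]
    congr 1
    apply propext
    constructor
    · rintro ⟨n, hn, h⟩
      exact ⟨⟨n, Nat.lt_succ_of_le hn⟩, h⟩
    · rintro ⟨n, h⟩
      exact ⟨n, Nat.lt_succ_iff.1 n.2, h⟩
  rw [h2]
  exact continuous_of_discreteTopology.comp h1

/-- A closed subset of the Cantor space containing no eventually false sequence pulls back to a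
pointwise bounded set of the Baire space. -/
lemma exists_bound (C : Set (ℕ → Bool)) (hC : IsClosed C)
    (hQ : ∀ a ∈ C, ¬ (∀ᶠ n in atTop, a n = false)) :
    ∃ h : ℕ → ℕ, ∀ u : ℕ → ℕ, jmap u ∈ C → ∀ n, u n ≤ h n := by
  classical
  have key : ∀ n, ∃ m, ∀ a ∈ C, n < ((Finset.range m).filter (fun i => a i = true)).card := by
    intro n
    by_contra hcon
    push Not at hcon
    let Z : ℕ → Set (ℕ → Bool) := fun m =>
      {a | a ∈ C ∧ ((Finset.range m).filter (fun i => a i = true)).card ≤ n}
    have hZne : ∀ m, (Z m).Nonempty := fun m => by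
      obtain ⟨a, ha, ha'⟩ := hcon m
      exact ⟨a, ha, ha'⟩
    have hZcl : ∀ m, IsClosed (Z m) := by
      intro m
      apply hC.inter
      have hc : Continuous (fun a : ℕ → Bool =>
          ((Finset.range m).filter (fun i => a i = true)).card) := by
        have h1 : Continuous (fun a : ℕ → Bool => (fun i : Fin m => a i)) :=
          continuous_pi fun i => continuous_apply _
        have h2 : (fun a : ℕ → Bool =>
            ((Finset.range m).filter (fun i => a i = true)).card) =
            (fun g : Fin m → Bool =>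
              ((Finset.range m).filter (fun i => ∃ h : i < m, g ⟨i, h⟩ = true)).card) ∘
            (fun a : ℕ → Bool => (fun i : Fin m => a i)) := by
          funext a
          simp only [Function.comp]
          congr 1
          apply Finset.filter_congr
          intro i hi
          constructor
          · intro h
            exact ⟨Finset.mem_range.1 hi, h⟩
          · rintro ⟨_, h⟩
            exact h
        rw [h2]
        exact continuous_of_discreteTopology.comp h1
      exact (isClosed_discrete {k : ℕ | k ≤ n}).preimage hc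
    have hZmono : ∀ m, Z (m + 1) ⊆ Z m := by
      rintro m a ⟨ha, ha'⟩
      refine ⟨ha, le_trans (Finset.card_le_card ?_) ha'⟩
      apply Finset.filter_subset_filter
      exact Finset.range_mono (Nat.le_succ m)
    obtain ⟨a, ha⟩ := IsCompact.nonempty_iInter_of_sequence_nonempty_isCompact_isClosed Z hZmono
      hZne (hZcl 0).isCompact hZcl
    rw [mem_iInter] at ha
    apply hQ a (ha 0).1
    -- finitely many trues
    have hfin : {i | a i = true}.Finite := by
      by_contra hinf
      obtain ⟨t, ht, htc⟩ := Set.Infinite.exists_subset_card_eq hinf (n + 1)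
      obtain ⟨m, hm⟩ := t.exists_nat_subset_range
      have h1 := (ha m).2
      have h2 : t ⊆ (Finset.range m).filter (fun i => a i = true) := by
        intro i hi
        rw [Finset.mem_filter]
        exact ⟨hm hi, ht hi⟩
      have h3 := Finset.card_le_card h2
      omega
    obtain ⟨b, hb⟩ := hfin.bddAbove
    filter_upwards [eventually_gt_atTop b] with i hi
    by_contra h
    have : i ≤ b := hb (by simpa using h)
    omega
  choose m hm using key
  refine ⟨m, fun u hu n => ?_⟩
  refine (le_pos u n).trans ?_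
  by_contra hlt
  push Not at hlt
  have h1 := hm n _ hu
  have h2 : ((Finset.range (m n)).filter (fun i => jmap u i = true)) ⊆
      (Finset.range n).image (pos u) := by
    intro i hi
    rw [Finset.mem_filter, Finset.mem_range, jmap_eq_true_iff] at hi
    obtain ⟨hi, l, rfl⟩ := hi
    rw [Finset.mem_image]
    refine ⟨l, ?_, rfl⟩
    rw [Finset.mem_range]
    exact (pos_strictMono u).lt_iff_lt.1 (hi.trans hlt)
  have h3 := (Finset.card_le_card h2).trans Finset.card_image_le
  rw [Finset.card_range] at h3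
  omega

lemma isMeagre_singleton' {K : Type u} [TopologicalSpace K] [T1Space K] [PerfectSpace K] (x : K) :
    IsMeagre ({x} : Set K) := by
  have hd : Dense ({x}ᶜ : Set K) := by
    rw [dense_iff_inter_open]
    rintro U hU ⟨y, hy⟩
    have := (PerfectSpace.univ_preperfect (α := K))
    rw [preperfect_iff_nhds] at this
    by_cases hyx : y = x
    · subst hyx
      obtain ⟨z, hz, hzy⟩ := this y (mem_univ y) U (hU.mem_nhds hy)
      exact ⟨z, hz.1, hzy⟩
    · exact ⟨y, hy, hyx⟩
  exact residual_of_dense_open isOpen_compl_singleton hd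

lemma isMeagre_of_countable {K : Type u} [TopologicalSpace K] [T1Space K] [PerfectSpace K]
    (S : Set K) (hS : S.Countable) : IsMeagre S := by
  have h := isMeagre_biUnion hS (f := fun x : K => ({x} : Set K)) (fun x _ => isMeagre_singleton' x)
  apply h.mono
  intro x hx
  simp only [mem_iUnion, mem_singleton_iff, exists_prop, exists_eq_right']
  exact hx

lemma perfectSpace_of_perfect {X : Type u} [TopologicalSpace X] (K : Set X) (hK : Perfect K) :
    PerfectSpace K := by
  refine ⟨?_⟩
  rw [preperfect_iff_nhds]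
  rintro ⟨x, hx⟩ - U hU
  have := preperfect_iff_nhds.1 hK.acc x hx
  obtain ⟨V, hV, hVU⟩ := mem_nhds_subtype _ _ _ |>.1 hU
  obtain ⟨y, ⟨hyV, hyK⟩, hyx⟩ := this V hV
  refine ⟨⟨y, hyK⟩, ⟨hVU hyV, mem_univ _⟩, ?_⟩
  intro h
  exact hyx (congrArg Subtype.val h)

/-- A nonmeagre subset of a perfect subset of the Cantor space yields an unbounded family. -/
lemma exists_unbounded (K : Set (ℕ → Bool)) (hK : Perfect K) (hne : K.Nonempty) :
    ∃ b : K → (ℕ → ℕ), ∀ h : ℕ → ℕ, IsMeagre {s : K | ∀ᶠ n in atTop, b s n ≤ h n} := by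
  classical
  have hKp : PerfectSpace K := perfectSpace_of_perfect K hK
  have hKne : Nonempty K := hne.to_subtype
  let q : ℕ → K := fun n => denseSeq K (Nat.unpair n).1
  let b : K → (ℕ → ℕ) := fun s n => sInf {m | (s : ℕ → Bool) m ≠ (q n : ℕ → Bool) m}
  have hb : ∀ s n, s ≠ q n → (s : ℕ → Bool) (b s n) ≠ (q n : ℕ → Bool) (b s n) := by
    intro s n hsn
    have hne : {m | (s : ℕ → Bool) m ≠ (q n : ℕ → Bool) m}.Nonempty := by
      by_contra hemp
      apply hsn
      apply Subtype.ext
      funext m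
      by_contra hm
      exact hemp ⟨m, hm⟩
    exact Nat.sInf_mem hne
  refine ⟨b, fun h => ?_⟩
  have hmeag : IsMeagre (range q ∪ ⋃ N : ℕ,
      {s : K | ∀ n ≥ N, ∃ m ≤ h n, (s : ℕ → Bool) m ≠ (q n : ℕ → Bool) m}) := by
    apply IsMeagre.union
    · exact isMeagre_of_countable _ (countable_range q)
    · apply isMeagre_iUnion
      intro N
      have hcl : IsClosed {s : K | ∀ n ≥ N, ∃ m ≤ h n, (s : ℕ → Bool) m ≠ (q n : ℕ → Bool) m} := by
        have : {s : K | ∀ n ≥ N, ∃ m ≤ h n, (s : ℕ → Bool) m ≠ (q n : ℕ → Bool) m} =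
            ⋂ (n : ℕ) (_ : n ≥ N), ⋃ m ∈ Finset.range (h n + 1),
              {s : K | (s : ℕ → Bool) m ≠ (q n : ℕ → Bool) m} := by
          ext s
          simp
        rw [this]
        refine isClosed_iInter fun n => isClosed_iInter fun _ => ?_
        apply isClosed_biUnion_finset
        intro m _
        have hc : Continuous (fun s : K => (s : ℕ → Bool) m) :=
          (continuous_apply m).comp continuous_subtype_val
        exact (isClosed_discrete {x : Bool | x ≠ (q n : ℕ → Bool) m}).preimage hc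
      have hd : Dense {s : K | ∀ n ≥ N, ∃ m ≤ h n, (s : ℕ → Bool) m ≠ (q n : ℕ → Bool) m}ᶜ := by
        apply (denseRange_denseSeq K).mono
        rintro _ ⟨i, rfl⟩ hs
        obtain ⟨m, -, hm⟩ := hs (Nat.pair i N) (Nat.right_le_pair i N)
        apply hm
        simp [q]
      exact residual_of_dense_open hcl.isOpen_compl hd
  apply hmeag.mono
  intro s hs
  by_cases hsq : s ∈ range q
  · exact Or.inl hsq
  · right
    obtain ⟨N, hN⟩ := eventually_atTop.1 hs
    rw [mem_iUnion]
    refine ⟨N, fun n hn => ⟨b s n, hN n hn, hb s n ?_⟩⟩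
    intro h
    exact hsq ⟨n, h.symm⟩

/-- The Cantor space is Polish. -/
lemma polishCantor : PolishSpace (ℕ → Bool) := by
  have h1 : SecondCountableTopology (ℕ → Bool) := inferInstance
  have h2 : IsCompletelyMetrizableSpace (ℕ → Bool) := inferInstance
  exact { h1, h2 with }

open Cardinal in
/-- The possible cardinalities of nonmeagre subsets of perfect subsets of the Cantor space. -/
def nonMeagreCards : Set Cardinal.{0} :=
  {c | ∃ K : Set (ℕ → Bool), K.Nonempty ∧ Perfect K ∧ ∃ S : Set K, ¬ IsMeagre S ∧ #S = c}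

open Cardinal in
/-- `non(M)`. -/
noncomputable def nonM : Cardinal.{0} := sInf nonMeagreCards

open Cardinal in
lemma nonMeagreCards_nonempty : nonMeagreCards.Nonempty := by
  have h : Perfect (Set.univ : Set (ℕ → Bool)) := by
    refine ⟨isClosed_univ, ?_⟩
    rw [preperfect_iff_nhds]
    intro x _ U hU
    obtain ⟨V, hVU, hV, hxV⟩ := mem_nhds_iff.1 hU
    obtain ⟨s, t, hst, hsub⟩ := isOpen_pi_iff.1 hV x hxV
    obtain ⟨m, hm⟩ := s.exists_nat_subset_range
    refine ⟨Function.update x m (!(x m)), ⟨hVU (hsub ?_), mem_univ _⟩, ?_⟩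
    · intro i hi
      have him : i ≠ m := by
        intro h
        have := Finset.mem_range.1 (hm hi)
        omega
      rw [Function.update_of_ne him]
      exact (hst i hi).2
    · intro h
      have := congrFun h m
      simp at this
  have : Nonempty (Set.univ : Set (ℕ → Bool)) := ⟨⟨fun _ => false, mem_univ _⟩⟩
  have hp0 := polishCantor
  have hp : PolishSpace (Set.univ : Set (ℕ → Bool)) := isClosed_univ.polishSpace
  exact ⟨_, Set.univ, univ_nonempty, h, Set.univ,
    not_isMeagre_of_isOpen isOpen_univ univ_nonempty, rfl⟩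

open Cardinal in
/-- Small subsets of perfect Polish spaces are meagre. -/
lemma isMeagre_of_lt (Y : Type v) [TopologicalSpace Y] [PolishSpace Y] [PerfectSpace Y]
    (S : Set Y) (hS : Cardinal.lift.{0} #S < Cardinal.lift.{v} nonM) : IsMeagre S := by
  rcases isEmpty_or_nonempty Y with hY | hY
  · have : S = ∅ := Set.eq_empty_of_isEmpty S
    rw [this]
    exact IsMeagre.empty
  · obtain ⟨K, ψ, hKne, hK, hψ⟩ := exists_psi Y
    by_contra hcon
    have h1 : ¬ IsMeagre (ψ '' S) := by
      intro hm
      apply hcon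
      have h2 : ψ ⁻¹' (ψ '' S)ᶜ ∈ residual Y := hψ hm
      apply mem_of_superset h2
      intro y hy hyS
      exact hy (mem_image_of_mem ψ hyS)
    have h3 : nonM ≤ #(ψ '' S) := csInf_le' ⟨K, hKne, hK, ψ '' S, h1, rfl⟩
    have h4 : Cardinal.lift.{v} #(ψ '' S) ≤ Cardinal.lift.{0} #S := mk_image_le_lift
    have h5 := (Cardinal.lift_le.{v}.2 h3).trans h4
    exact absurd hS (not_lt.2 h5)

/-- The interleaving map. -/
def interleave (p : (ℕ → Bool) × (ℕ → Bool)) : ℕ → Bool :=
  fun n => if n % 2 = 0 then p.1 (n / 2) else p.2 (n / 2)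

lemma continuous_interleave : Continuous interleave := by
  rw [continuous_pi_iff]
  intro n
  unfold interleave
  by_cases h : n % 2 = 0
  · simp only [h, if_true]
    exact (continuous_apply _).comp continuous_fst
  · simp only [h, if_false]
    exact (continuous_apply _).comp continuous_snd

lemma interleave_injective : Function.Injective interleave := by
  rintro ⟨a, b⟩ ⟨a', b'⟩ h
  have h1 : a = a' := by
    funext n
    have := congrFun h (2 * n)
    simpa [interleave] using this
  have h2 : b = b' := by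
    funext n
    have := congrFun h (2 * n + 1)
    have e : (2 * n + 1) % 2 = 1 := by omega
    have e' : (2 * n + 1) / 2 = n := by omega
    simpa [interleave, e, e'] using this
  rw [h1, h2]

/-- A countable dense set of the Cantor space: eventually false sequences. -/
lemma exists_enum_eventually_false : ∃ Q : ℕ → (ℕ → Bool),
    ∀ a : ℕ → Bool, (∀ᶠ n in atTop, a n = false) → ∃ i, Q i = a := by
  classical
  have hc : {a : ℕ → Bool | ∀ᶠ n in atTop, a n = false}.Countable := by
    have hsub : {a : ℕ → Bool | ∀ᶠ n in atTop, a n = false} ⊆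
        range (fun t : Finset ℕ => fun n => decide (n ∈ t)) := by
      intro a ha
      obtain ⟨N, hN⟩ := eventually_atTop.1 ha
      refine ⟨(Finset.range N).filter (fun i => a i = true), ?_⟩
      funext n
      by_cases hn : n < N
      · simp [hn]
      · have := hN n (not_lt.1 hn)
        simp [this]
    exact (countable_range _).mono hsub
  obtain ⟨Q, hQ⟩ := hc.exists_eq_range ⟨fun _ => false, by simp⟩
  refine ⟨Q, fun a ha => ?_⟩
  have : a ∈ range Q := hQ ▸ ha
  exact this

open Cardinal in
/-- In every nonempty perfect Polish space there is a universally meager set which is not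
countably perfectly meager. -/
theorem result (X : Type u) [TopologicalSpace X] [PolishSpace X] [PerfectSpace X] [Nonempty X] :
    ∃ A : Set X, UniversallyMeager.{u, v} A ∧ ¬ CountablyPerfectlyMeager A := by
  classical
  -- the embedding of the square of the Cantor space
  obtain ⟨J, hJc, hJi⟩ : ∃ J : (ℕ → Bool) × (ℕ → Bool) → X, Continuous J ∧ Function.Injective J := by
    let := TopologicalSpace.upgradeIsCompletelyMetrizable X
    obtain ⟨f, -, hf, hfi⟩ := (PerfectSpace.univ_perfect (α := X)).exists_nat_bool_injection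
      univ_nonempty
    exact ⟨f ∘ interleave, hf.comp continuous_interleave, hfi.comp interleave_injective⟩
  -- a nonmeagre set of minimal size
  obtain ⟨K, hKne, hK, S, hS, hSc⟩ := csInf_mem nonMeagreCards_nonempty
  change #S = nonM at hSc
  have hKp : PerfectSpace K := perfectSpace_of_perfect K hK
  have hKN : Nonempty K := hKne.to_subtype
  have hp0 := polishCantor
  have hKP : PolishSpace K := hK.closed.polishSpace
  have hKC : CompactSpace K := isCompact_iff_compactSpace.1 hK.closed.isCompact
  have hinf : ℵ₀ < nonM := by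
    rw [← hSc]
    by_contra hle
    push Not at hle
    exact hS (isMeagre_of_countable S (Cardinal.le_aleph0_iff_set_countable.1 hle))
  -- index set
  let I : Type := nonM.ord.ToType
  have hI : #I = nonM := mk_ord_toType nonM
  obtain ⟨e⟩ : Nonempty (I ≃ S) := Cardinal.eq.1 (hI.trans hSc.symm)
  have hIio : ∀ i : I, #(Iio i) < nonM := by
    intro i
    have := mk_Iio_lt i (by simp [I])
    rwa [hI] at this
  have hIic : ∀ i : I, #(Iic i) < nonM := by
    intro i
    have h1 : Iic i ⊆ insert i (Iio i) := by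
      intro j hj
      rcases lt_or_eq_of_le (show j ≤ i from hj) with h | h
      · exact Or.inr h
      · exact Or.inl h
    calc #(Iic i) ≤ #(insert i (Iio i) : Set I) := mk_le_mk_of_subset h1
      _ ≤ #(Iio i) + 1 := mk_insert_le
      _ < nonM := add_lt_of_lt hinf.le (hIio i) (one_lt_aleph0.trans hinf)
  obtain ⟨σ⟩ : Nonempty (I ≃ I × I) := by
    apply Cardinal.eq.1
    rw [mk_prod, lift_uzero, hI]
    exact (mul_eq_self hinf.le).symm
  let x : I → K := fun i => (e i : K)
  have hxS : ∀ s ∈ S, ∃ i, x i = s := by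
    intro s hs
    refine ⟨e.symm ⟨s, hs⟩, ?_⟩
    simp [x]
  -- codes
  obtain ⟨O, hO, hOb⟩ := exists_base_seq K
  have hcode : ∀ i : I, ∃ c : ℕ → ℕ, ∀ j < i, x j ∉ GG O c := by
    intro i
    have hm : IsMeagre (x '' Iio i) := by
      apply isMeagre_of_lt
      rw [lift_uzero, lift_uzero]
      exact mk_image_le.trans_lt (hIio i)
    obtain ⟨c, hc⟩ := exists_code O hO hOb _ hm
    exact ⟨c, fun j hj => hc _ (mem_image_of_mem x hj)⟩
  choose c hc using hcode
  -- unbounded family
  obtain ⟨bK, hbK⟩ := exists_unbounded K hK hKne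
  have hunb : ∀ h : ℕ → ℕ, ∃ i : I, ∃ᶠ n in atTop, h n < bK (x i) n := by
    intro h
    by_contra hcon
    push Not at hcon
    apply hS
    apply (hbK h).mono
    intro s hs
    obtain ⟨i, rfl⟩ := hxS s hs
    exact hcon i
  let uu : I → (ℕ → ℕ) := fun γ n => Nat.pair (c γ n) (bK (x (σ γ).2) n)
  let el : I → X := fun γ => J (jmap (uu γ), (x (σ γ).1 : ℕ → Bool))
  refine ⟨range el, ?_, ?_⟩
  · -- universally meager
    intro Y _ _ _ f hf hfs
    have hYne : Nonempty Y := ⟨f (Classical.arbitrary X)⟩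
    let _ : MeasurableSpace X := borel X
    have _ : BorelSpace X := ⟨rfl⟩
    let _ : MeasurableSpace Y := borel Y
    have _ : BorelSpace Y := ⟨rfl⟩
    -- decoding
    let Φ : (ℕ → ℕ) × (ℕ → ℕ) × (ℕ → Bool) → X := fun p =>
      J (jmap (fun n => Nat.pair (p.1 n) (p.2.1 n)), p.2.2)
    have hΦc : Continuous Φ := by
      apply hJc.comp
      apply Continuous.prodMk
      · apply continuous_jmap.comp
        apply continuous_pi
        intro n
        have h1 : Continuous (fun p : (ℕ → ℕ) × (ℕ → ℕ) × (ℕ → Bool) => (p.1 n, p.2.1 n)) := by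
          fun_prop
        have h2 : Continuous (fun q : ℕ × ℕ => Nat.pair q.1 q.2) :=
          continuous_of_discreteTopology
        exact h2.comp h1
      · fun_prop
    have hΦi : Function.Injective Φ := by
      rintro ⟨a, b, y⟩ ⟨a', b', y'⟩ h
      have h1 := hJi h
      have h2 := congrArg Prod.snd h1
      have h3 := jmap_injective (congrArg Prod.fst h1)
      have h4 : ∀ n, a n = a' n ∧ b n = b' n := fun n => Nat.pair_eq_pair.1 (congrFun h3 n)
      have ha : a = a' := funext fun n => (h4 n).1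
      have hb : b = b' := funext fun n => (h4 n).2
      have hy : y = y' := h2
      rw [ha, hb, hy]
    have hΦm : MeasurableEmbedding Φ := hΦc.measurableEmbedding hΦi
    obtain ⟨C, hCm, hC⟩ := hΦm.exists_measurable_extend (g := Prod.fst) measurable_fst
      (fun _ => ⟨fun _ => 0⟩)
    have hCel : ∀ γ, C (el γ) = c γ := by
      intro γ
      exact congrFun hC (c γ, bK (x (σ γ).2), (x (σ γ).1 : ℕ → Bool))
    have hfs' : Measurable f.symm := hfs
    have hKU := kuratowskiUlam O hO hOb (fun y => C (f.symm y))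
      (fun m => (measurable_pi_apply m).comp (hCm.comp hfs'))
    -- pick an element of S
    obtain ⟨β, hβ⟩ : ∃ β : I, ∀ᶠ y in residual Y, x β ∈ GG O (C (f.symm y)) := by
      by_contra hcon
      apply hS
      apply mem_of_superset hKU
      intro s hs hsS
      obtain ⟨i, rfl⟩ := hxS s hsS
      exact hcon ⟨i, hs⟩
    have hsub : f '' range el ⊆ {y | x β ∈ GG O (C (f.symm y))}ᶜ ∪ (f ∘ el) '' Iic β := by
      rintro _ ⟨_, ⟨γ, rfl⟩, rfl⟩
      rcases le_or_gt γ β with h | h
      · right
        exact ⟨γ, h, rfl⟩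
      · left
        intro hmem
        change x β ∈ GG O (C (f.symm (f (el γ)))) at hmem
        rw [Equiv.symm_apply_apply, hCel] at hmem
        exact hc γ β h hmem
    apply IsMeagre.mono hsub
    apply IsMeagre.union
    · unfold IsMeagre
      rw [compl_compl]
      exact hβ
    · apply isMeagre_of_lt
      have h1 : Cardinal.lift.{0} #((f ∘ el) '' Iic β) ≤ Cardinal.lift.{v} #(Iic β) :=
        mk_image_le_lift
      exact h1.trans_lt (Cardinal.lift_lt.{0, v}.2 (hIic β))
  · -- not countably perfectly meager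
    intro hPM
    obtain ⟨Q, hQ⟩ := exists_enum_eventually_false
    let φ : ℕ → K → X := fun n y => J (Q n, (y : ℕ → Bool))
    have hφc : ∀ n, Continuous (φ n) := by
      intro n
      exact hJc.comp (continuous_const.prodMk continuous_subtype_val)
    have hφi : ∀ n, Function.Injective (φ n) := by
      intro n y y' h
      exact Subtype.ext (congrArg Prod.snd (hJi h))
    have hφe : ∀ n, IsClosedEmbedding (φ n) := fun n => (hφc n).isClosedEmbedding (hφi n)
    obtain ⟨F, hF, hAF, hFm⟩ := hPM (fun n => range (φ n)) (by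
      intro n
      refine ⟨range_nonempty _, (hφe n).isClosed_range, ?_⟩
      rw [preperfect_iff_nhds]
      rintro _ ⟨y, rfl⟩ U hU
      have h1 : φ n ⁻¹' U ∈ 𝓝 y := (hφc n).continuousAt hU
      have h2 := (PerfectSpace.univ_preperfect (α := K))
      rw [preperfect_iff_nhds] at h2
      obtain ⟨z, hz, hzy⟩ := h2 y (mem_univ y) _ h1
      exact ⟨φ n z, ⟨hz.1, mem_range_self z⟩, fun h => hzy (hφi n h)⟩)
    have hm : ∀ n, IsMeagre {y : K | φ n y ∈ ⋃ k, F k} := by
      intro n
      let g : K ≃ₜ range (φ n) := (hφe n).isEmbedding.toHomeomorph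
      have h1 := (hFm n).preimage_of_isOpenMap g.continuous g.isOpenMap
      exact h1
    have hm' : IsMeagre (⋃ n, {y : K | φ n y ∈ ⋃ k, F k}) := isMeagre_iUnion hm
    obtain ⟨α, hα⟩ : ∃ α : I, x α ∉ ⋃ n, {y : K | φ n y ∈ ⋃ k, F k} := by
      by_contra hcon
      push Not at hcon
      apply hS
      apply hm'.mono
      intro s hs
      obtain ⟨i, rfl⟩ := hxS s hs
      exact hcon i
    have hα' : ∀ n k, J (Q n, (x α : ℕ → Bool)) ∉ F k := by
      intro n k hmem
      apply hα
      rw [mem_iUnion]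
      exact ⟨n, mem_iUnion.2 ⟨k, hmem⟩⟩
    have hbd : ∀ k, ∃ h : ℕ → ℕ, ∀ u : ℕ → ℕ, J (jmap u, (x α : ℕ → Bool)) ∈ F k →
        ∀ n, u n ≤ h n := by
      intro k
      have hcl : IsClosed {a : ℕ → Bool | J (a, (x α : ℕ → Bool)) ∈ F k} := by
        have : Continuous (fun a : ℕ → Bool => J (a, (x α : ℕ → Bool))) :=
          hJc.comp (continuous_id.prodMk continuous_const)
        exact (hF k).preimage this
      exact exists_bound _ hcl (by
        intro a ha hev
        obtain ⟨i, rfl⟩ := hQ a hev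
        exact hα' i k ha)
    choose h hh using hbd
    let H : ℕ → ℕ := fun n => (Finset.range (n + 1)).sup (fun k => h k n)
    obtain ⟨ξ, hξ⟩ := hunb H
    have hel : el (σ.symm (α, ξ)) ∈ ⋃ k, F k := hAF (mem_range_self _)
    obtain ⟨k, hk⟩ := mem_iUnion.1 hel
    have hk' : J (jmap (uu (σ.symm (α, ξ))), (x α : ℕ → Bool)) ∈ F k := by
      have : el (σ.symm (α, ξ)) = J (jmap (uu (σ.symm (α, ξ))), (x α : ℕ → Bool)) := by
        simp only [el, Equiv.apply_symm_apply]
      rw [← this]
      exact hk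
    have hle := hh k _ hk'
    obtain ⟨n, hn, hn'⟩ := (hξ.and_eventually (eventually_ge_atTop k)).exists
    have h1 : bK (x ξ) n ≤ uu (σ.symm (α, ξ)) n := by
      simp only [uu, Equiv.apply_symm_apply]
      exact Nat.right_le_pair _ _
    have h2 : h k n ≤ H n := by
      apply Finset.le_sup (f := fun k => h k n)
      rw [Finset.mem_range]
      omega
    have h3 := hle n
    omega

end Pool.Agent.Results.MP_a16b96_lc.NotEqual
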